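import Pool.Agent.helper47.T1.SpecE1
import Pool.Agent.helper41.MS.EQ4

/-!
# MP_07c750, project T1, row QE4
-/

set_option autoImplicit false

open scoped MatrixGroups ContDiff Topology UpperHalfPlane ComplexConjugate
open UpperHalfPlane MeasureTheory Filter Set

namespace Pool.Agent.T1

open Pool.Agent.RS Pool.Agent.MS

theorem QE4_mono {J : ℕ} {M M' : ℝ} {β : ℝ → ℝ} (h : SBM J M β) (hM : M ≤ M') : SBM J M' β :=
  ⟨h.sb, fun j hj x => (h.bd j hj x).trans hM⟩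

theorem QE4_pos {J : ℕ} {M : ℝ} {β : ℝ → ℝ} (h : SBM J M β) (hB : BB (1 / 4) β) : 0 < M := by
  by_contra hM
  push Not at hM
  have h0 : β = fun _ => 0 := by
    funext x
    have h1 := h.bd 0 (Nat.zero_le _) x
    rw [iteratedDeriv_zero] at h1
    have h2 := abs_nonneg (β x)
    exact abs_eq_zero.1 (le_antisymm (h1.trans hM) h2)
  have h3 := hB.2
  rw [h0] at h3
  simp at h3

theorem QE4_proof (h1 : QE3_stmt) (h2 : QFR_stmt) (h3 : QST_stmt) (hSTB : STB_stmt) (hGFD : GFD_stmt)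
    (hGBD : GBD_stmt) (hFL0 : FL0_stmt) (hCV1 : CV1_stmt) : QE4_stmt := by
  obtain ⟨K3, hK3, h1⟩ := h1
  obtain ⟨Kf, hKf, h2⟩ := h2
  have hKK : (1 : ℝ) ≤ 8 * K3 + Kf := by linarith
  refine ⟨8 * K3 + Kf, hKK, ?_⟩
  intro β α1 α2 M T sβ sα1 sα2 hβ hα1 hα2 hT Γ F r φ hΓ hF hr hM hφ Ψ hΨ hΨ1 hΨi
  obtain ⟨K, hK⟩ : ∃ K : ℝ, K = 8 * K3 + Kf := ⟨_, rfl⟩
  rw [← hK] at hr hM hKK ⊢
  have hK3K : K3 ≤ K := by rw [hK]; linarith
  have hKfK : Kf ≤ K := by rw [hK]; linarith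
  have h8K : 8 * K3 ≤ K := by rw [hK]; linarith
  have hM0 : 0 < M := QE4_pos sβ hβ
  have hr1 : 1 ≤ r := hKK.trans hr
  have hr0 : 0 < r := by linarith
  have hr0' : 0 ≤ r := hr0.le
  obtain ⟨-, -, -, hstBB, hmono, -⟩ := hSTB
  have hα1' : BA (1 / 4) α1 := (hmono (1 / 8) (1 / 4) α1 (by norm_num)).2.1 hα1
  have hα2' : BA (1 / 4) α2 := (hmono (1 / 8) (1 / 4) α2 (by norm_num)).2.1 hα2
  have hβ' : BB (1 / 4) (st (-T) β) := by
    refine (hmono (Real.exp (-T) * (1 / 4)) (1 / 4) (st (-T) β) ?_).2.2 (hstBB (1 / 4) (-T) β hβ)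
    have h2 : Real.exp (-T) ≤ 1 := Real.exp_le_one_iff.2 (by linarith)
    linarith
  have hφ' : InvC Γ φ := ⟨EQ4_cont hφ.1, hφ.2.1⟩
  obtain ⟨hX, mX, hXm⟩ := EQ4_pf hFL0 hCV1 hGBD hΓ hβ'.1 hα1'.1 r hφ'
  obtain ⟨hY, mY, hYm⟩ := EQ4_pf hFL0 hCV1 hGBD hΓ hβ.1 hα2'.1 r hφ'
  obtain ⟨⟨hm, -, hfin, -⟩, hG⟩ := hGFD Γ F hΓ hF
  have hfm : IsFiniteMeasure (mG.restrict (dG F)) := ⟨by rwa [Measure.restrict_apply_univ]⟩
  have hGR := (hG ℝ).1
  -- the translations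
  have t1 : iR F (fun g => ‖pf (st (-T) β) α1 r φ (g * aM T)‖ ^ 2) =
      qn F (pc (st (-T) β) α1) r φ :=
    hGR (fun g => ‖pf (st (-T) β) α1 r φ g‖ ^ 2) (aM T) (fun γ g => by
      change ‖pf (st (-T) β) α1 r φ ((γ : SL(2, ℝ)) * g)‖ ^ 2 = _
      rw [hX.2 γ g])
  have t2 : iR F (fun g => Ψ g * ‖pf (st (-T) β) α1 r φ (g * aM T)‖ ^ 2) =
      iR F (fun g => Ψ (g * aM (-T)) * ‖pf (st (-T) β) α1 r φ g‖ ^ 2) := by
    have t3 := hGR (fun g => Ψ (g * aM (-T)) * ‖pf (st (-T) β) α1 r φ g‖ ^ 2) (aM T) (fun γ g => by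
      change Ψ ((γ : SL(2, ℝ)) * g * aM (-T)) * ‖pf (st (-T) β) α1 r φ ((γ : SL(2, ℝ)) * g)‖ ^ 2 = _
      rw [hX.2 γ g, mul_assoc, hΨi])
    have t4 : ∀ g : SL(2, ℝ), g * aM T * aM (-T) = g := by
      intro g
      rw [mul_assoc]
      have t5 : aM T * aM (-T) = 1 := by
        apply Subtype.ext
        change (aM T).1 * (aM (-T)).1 = (1 : Matrix (Fin 2) (Fin 2) ℝ)
        simp only [aM]
        rw [Matrix.mul_fin_two, Matrix.one_fin_two]
        have e1 : Real.exp (T / 2) * Real.exp (-T / 2) = 1 := by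
          rw [← Real.exp_add]
          rw [show T / 2 + -T / 2 = 0 by ring, Real.exp_zero]
        have e2 : Real.exp (-(T / 2)) * Real.exp (-(-T / 2)) = 1 := by
          rw [← Real.exp_add]
          rw [show -(T / 2) + -(-T / 2) = 0 by ring, Real.exp_zero]
        rw [e1, e2]
        simp
      rw [t5, mul_one]
    unfold iR
    rw [← t3]
    refine integral_congr_ae (Filter.Eventually.of_forall fun g => ?_)
    simp only [t4]
  have hmul : Continuous fun g : SL(2, ℝ) => g * aM T := continuous_mul_const _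
  have hX' : Continuous fun g : SL(2, ℝ) => ‖pf (st (-T) β) α1 r φ (g * aM T)‖ :=
    (hX.1.comp hmul).norm
  have hY' : Continuous fun g : SL(2, ℝ) => ‖pf β α2 r φ g‖ := hY.1.norm
  have hnn : 0 ≤ nn F φ := by
    unfold nn
    exact integral_nonneg fun z => by positivity
  -- the constants
  have hr8 : 0 < r ^ (1 / 8 : ℝ) := Real.rpow_pos_of_pos hr0 _
  have hr8' : r ^ (-(1 / 8) : ℝ) = (r ^ (1 / 8 : ℝ))⁻¹ := Real.rpow_neg hr0' _
  have hE1 : 1 ≤ Real.exp (20 * T) := Real.one_le_exp (by linarith)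
  have hfr1 : Kf * (M * Real.exp (5 * T)) ^ 4 * r ^ (-(1 / 8) : ℝ) ≤ 1 := by
    rw [hr8', ← div_eq_mul_inv, div_le_one hr8]
    refine le_trans ?_ hM
    have e1 : (M * Real.exp (5 * T)) ^ 4 = M ^ 4 * Real.exp (20 * T) := by
      rw [mul_pow, ← Real.exp_nat_mul]
      congr 2
      push_cast
      ring
    rw [e1, ← mul_assoc]
    gcongr
  have hfr2 : Kf * M ^ 4 * r ^ (-(1 / 8) : ℝ) ≤ 1 := by
    rw [hr8', ← div_eq_mul_inv, div_le_one hr8]
    refine le_trans ?_ hM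
    have e1 : Kf * M ^ 4 = Kf * M ^ 4 * 1 := by ring
    rw [e1]
    gcongr
  have sα1' : SBM 4 (M * Real.exp (5 * T)) α1 := QE4_mono sα1 (by
    have : 1 ≤ Real.exp (5 * T) := Real.one_le_exp (by linarith)
    nlinarith)
  have hst := h3.1 β M T sβ hT
  have hq1 : r * qn F (pc (st (-T) β) α1) r φ ≤ 2 * nn F φ := by
    have e1 := (h2 (st (-T) β) α1 (M * Real.exp (5 * T)) hst.1 sα1' Γ F r hΓ hF (hKfK.trans hr)).1 hα1' φ hφ'
    rw [hβ'.2] at e1
    refine e1.trans ?_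
    gcongr
    linarith
  have hq2 : r * qn F (pc β α2) r φ ≤ 2 * nn F φ := by
    have e1 := (h2 β α2 M sβ sα2 Γ F r hΓ hF (hKfK.trans hr)).1 hα2' φ hφ'
    rw [hβ.2] at e1
    refine e1.trans ?_
    gcongr
    linarith
  have hη : 0 < K * M ^ 2 * (1 + T) * Real.exp (10 * T) * r ^ (-(1 / 16) : ℝ) := by positivity
  have hL := h1 β α1 α2 M T sβ sα1 sα2 hβ hα1 hα2 hT Γ F r φ hΓ hF (hK3K.trans hr) hφ
  have key := EQ4_abs (mG.restrict (dG F)) (fun g => ‖pf (st (-T) β) α1 r φ (g * aM T)‖)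
    (fun g => ‖pf β α2 r φ g‖) Ψ hX'.measurable hY'.measurable hΨ hΨ1 (fun g => norm_nonneg _)
    (fun g => norm_nonneg _) mX mY (fun g => hXm _) hYm r
    (K * M ^ 2 * (1 + T) * Real.exp (10 * T) * r ^ (-(1 / 16) : ℝ)) (nn F φ) hr0' hη
    (by
      refine hL.trans ?_
      refine mul_le_mul_of_nonneg_right ?_ hnn
      have e1 : (K * M ^ 2 * (1 + T) * Real.exp (10 * T) * r ^ (-(1 / 16) : ℝ)) ^ 2 / 8 =
          (K ^ 2 / 8) * (M ^ 4 * (1 + T) ^ 2 * (Real.exp (10 * T) ^ 2) * (r ^ (-(1 / 16) : ℝ)) ^ 2) := by ring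
      have e2 : Real.exp (10 * T) ^ 2 = Real.exp (20 * T) := by
        rw [← Real.exp_nat_mul]
        congr 1
        push_cast
        ring
      have e3 : (r ^ (-(1 / 16) : ℝ)) ^ 2 = r ^ (-(1 / 8) : ℝ) := by
        rw [← Real.rpow_natCast, ← Real.rpow_mul hr0']
        norm_num
      rw [e1, e2, e3]
      have e4 : K3 * M ^ 4 * (1 + T) ^ 2 * Real.exp (20 * T) * r ^ (-(1 / 8) : ℝ) =
          K3 * (M ^ 4 * (1 + T) ^ 2 * Real.exp (20 * T) * r ^ (-(1 / 8) : ℝ)) := by ring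
      rw [e4]
      refine mul_le_mul_of_nonneg_right ?_ (by positivity)
      nlinarith)
    (by
      have t3 := hq1
      rw [← t1] at t3
      unfold iR at t3
      exact t3) (by
      have t3 := hq2
      change r * iR F (fun g => ‖pf β α2 r φ g‖ ^ 2) ≤ _ at t3
      unfold iR at t3
      exact t3)
  rw [← t2]
  exact key

end Pool.Agent.T1
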